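import Pool.Agent.BSH.Stmts

set_option autoImplicit false

namespace Pool.Agent.BSH.H53

open MvPolynomial

theorem map_level {A B : Type} [CommRing A] [CommRing B] (φ : A →+* B) (r q : ℕ) (t : ℕ → A)
    (i : ℕ) : φ (level r q t i) = level r q (fun m => φ (t m)) i := by
  unfold level
  split_ifs
  · rfl
  · rw [map_sum]
    refine Finset.sum_congr rfl (fun m _ => ?_)
    rw [map_mul, map_pow, map_pow, map_add, map_natCast, map_one]
  · exact map_zero φ

theorem aeval_comp_level (E : Type) [Field E] (r q : ℕ) (t : ℕ → MvPolynomial ℕ E)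
    (F : MvPolynomial ℕ E) :
    (aeval t (aeval (level r q X) F : MvPolynomial ℕ E) : MvPolynomial ℕ E)
      = aeval (level r q t) F := by
  rw [← AlgHom.comp_apply]
  congr 1
  refine MvPolynomial.algHom_ext (fun i => ?_)
  rw [AlgHom.comp_apply, aeval_X, aeval_X]
  have h := map_level (aeval t : MvPolynomial ℕ E →ₐ[E] MvPolynomial ℕ E).toRingHom r q X i
  have h2 : (fun m => (aeval t : MvPolynomial ℕ E →ₐ[E] MvPolynomial ℕ E).toRingHom (X m)) = t := by
    funext m
    exact aeval_X t m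
  rw [h2] at h
  exact h

theorem recc (lvl : LvlStmt) (cst : CstStmt) (_nat : NatStmt) : RecStmt := by
  intro E _ _ l
  induction l with
  | zero =>
    intro σ ν F hν hF hF0
    have h := lvl E (4 ^ 0 * ν) (7 + 3 * σ) (σ * 4 ^ 0 * ν) F (by omega) (by ring_nf; omega)
      (by
        have : 4 * (4 ^ 0 * ν) = 4 ^ (0 + 1) * ν := by ring
        rw [this]; exact hF) hF0
    exact h
  | succ l ih =>
    intro σ ν F hν hF hF0
    have h4 : 1 ≤ 4 ^ (l + 1) * ν := Nat.mul_pos (pow_pos (by norm_num) _) hν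
    have hF' : IsCheap E (4 * (4 ^ (l + 1) * ν)) (σ * 4 ^ (l + 1) * ν) F := by
      have : 4 * (4 ^ (l + 1) * ν) = 4 ^ (l + 1 + 1) * ν := by ring
      rw [this]; exact hF
    have h1 := lvl E (4 ^ (l + 1) * ν) (7 + 3 * σ) (σ * 4 ^ (l + 1) * ν) F h4
      (by ring_nf; omega) hF' hF0
    have h2 := cst E (4 ^ (l + 1) * ν) (7 + 3 * σ) (σ * 4 ^ (l + 1) * ν) F hF'
    have h3 : IsCheap E (4 ^ (l + 1) * (3 * ν)) ((14 * σ + 28) * 4 ^ l * (3 * ν))
        (aeval (level (4 ^ (l + 1) * ν) (7 + 3 * σ) X) F) := by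
      obtain ⟨L, hL1, hL2, hL3⟩ := h2
      have e1 : 3 * (4 ^ (l + 1) * ν) = 4 ^ (l + 1) * (3 * ν) := by ring
      rw [e1] at hL2 hL3
      refine ⟨L, hL1.trans ?_, hL2, hL3⟩
      have e2 : σ * 4 ^ (l + 1) * ν + 3 * (4 ^ (l + 1) * ν) * (7 + 3 * σ)
          = (40 * σ + 84) * (4 ^ l * ν) := by ring
      have e3 : (14 * σ + 28) * 4 ^ l * (3 * ν) = (42 * σ + 84) * (4 ^ l * ν) := by ring
      rw [e2, e3]
      exact Nat.mul_le_mul_right _ (by omega)
    have h5 := ih (14 * σ + 28) (3 * ν) _ (by omega) h3 h1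
    rw [aeval_comp_level] at h5
    exact h5

end Pool.Agent.BSH.H53
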